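import Pool.Agent.N110.Joint

/-!
Weak pull back of sections: the factor depends on the multiple.
-/

set_option autoImplicit false

open FF Pool.Agent.W602.GT Pool.Agent.Y172 Pool.Agent.R887

namespace Pool.Agent.N110.DV

section

variable {K : Type} [Field K] [Algebra ℂ K] {N : ℕ} {y : Fin (N + 1) → K}

/-- the map pulls back sections of `m (K_X + Δ) + b A` to sections of `m (K_X + Δ) + b B`, up to
factors which depend on `m` -/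
def WPulls (y : Fin (N + 1) → K) (c : Place ℂ K → ℤ) (Δ : Place ℂ K → ℚ) (ψ : K ≃ₐ[ℂ] K) : Prop :=
  ∀ A, Effective y A → ∃ B, Effective y B ∧ ∀ m : ℕ, 1 ≤ m → ∃ J : K, J ≠ 0 ∧
    ∀ b : ℕ, 1 ≤ b → ∀ g ∈ Lsp y c m (m • Δ + b • A), J * ψ g ∈ Lsp y c m (m • Δ + b • B)

variable {c : Place ℂ K → ℤ} {Δ : Place ℂ K → ℚ}

theorem WPulls.one : WPulls y c Δ 1 := fun A hA =>
  ⟨A, hA, fun _ _ => ⟨1, one_ne_zero, fun _ _ g hg => by rw [one_mul]; exact hg⟩⟩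

theorem WPulls.mul {φ ψ : K ≃ₐ[ℂ] K} (h1 : WPulls y c Δ φ) (h2 : WPulls y c Δ ψ) :
    WPulls y c Δ (φ * ψ) := by
  intro A hA
  obtain ⟨B1, hB1, h3⟩ := h2 A hA
  obtain ⟨B2, hB2, h4⟩ := h1 B1 hB1
  refine ⟨B2, hB2, fun m hm => ?_⟩
  obtain ⟨J1, hJ1, h5⟩ := h3 m hm
  obtain ⟨J2, hJ2, h6⟩ := h4 m hm
  refine ⟨J2 * φ J1, mul_ne_zero hJ2 (by rwa [Ne, map_eq_zero]), fun b hb g hg => ?_⟩
  have h7 := h6 b hb _ (h5 b hb g hg)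
  rw [map_mul, ← mul_assoc] at h7
  exact h7

theorem WPulls.word {S : Set (K ≃ₐ[ℂ] K)} (h : ∀ φ ∈ S, WPulls y c Δ φ) (w : List (K ≃ₐ[ℂ] K))
    (hw : ∀ φ ∈ w, φ ∈ S) : WPulls y c Δ w.prod := by
  induction w with
  | nil => exact WPulls.one
  | cons φ w ih =>
    rw [List.prod_cons]
    exact (h φ (hw φ (by simp))).mul (ih fun ψ hψ => hw ψ (by simp [hψ]))

theorem WPulls.word_inv {S : Set (K ≃ₐ[ℂ] K)} (h : ∀ φ ∈ S, WPulls y c Δ φ⁻¹)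
    (w : List (K ≃ₐ[ℂ] K)) (hw : ∀ φ ∈ w, φ ∈ S) : WPulls y c Δ w.prod⁻¹ := by
  induction w with
  | nil =>
    rw [List.prod_nil, inv_one]
    exact WPulls.one
  | cons φ w ih =>
    rw [List.prod_cons, mul_inv_rev]
    exact (ih fun ψ hψ => hw ψ (by simp [hψ])).mul (h φ (hw φ (by simp)))

theorem WPulls.closure {S : Set (K ≃ₐ[ℂ] K)} (h1 : ∀ φ ∈ S, WPulls y c Δ φ)
    (h2 : ∀ φ ∈ S, WPulls y c Δ φ⁻¹) {ψ : K ≃ₐ[ℂ] K} (hψ : ψ ∈ Subgroup.closure S) :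
    WPulls y c Δ ψ ∧ WPulls y c Δ ψ⁻¹ := by
  induction hψ using Subgroup.closure_induction with
  | mem φ hφ => exact ⟨h1 _ hφ, h2 _ hφ⟩
  | one =>
    rw [inv_one]
    exact ⟨WPulls.one, WPulls.one⟩
  | mul a b _ _ ha hb =>
    rw [mul_inv_rev]
    exact ⟨WPulls.mul ha.1 hb.1, WPulls.mul hb.2 ha.2⟩
  | inv a _ ha =>
    rw [inv_inv]
    exact ⟨ha.2, ha.1⟩

end

end Pool.Agent.N110.DV
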