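import Pool.Agent.N110.DV.Defs
import Pool.Agent.N110.DV.Pull
import Pool.Agent.N110.PA.Main
import Pool.Agent.N110.RK.Stat

/-!
Divisors `L` as log canonical divisors: `L = K_X + (L - K_X)`, `K_X` being the divisor of a form.
-/

set_option autoImplicit false
set_option linter.overlappingInstances false
set_option linter.unusedSectionVars false

open FF Module MvPolynomial Pool.Agent.W602.GT Pool.Agent.W603.LV
open Pool.Agent.Y172 Pool.Agent.Y191 Pool.Agent.R887

namespace Pool.Agent.N110.DV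

section

variable {K : Type} [Field K] [Algebra ℂ K] {N n : ℕ} {y : Fin (N + 1) → K}

/-- the difference `L - K_X` -/
def sh (c : Place ℂ K → ℤ) (L : Place ℂ K → ℚ) : Place ℂ K → ℚ := fun P => L P - c P

theorem sm2 (m b : ℕ) (D A : Place ℂ K → ℚ) (P : Place ℂ K) :
    (m • D + b • A) P = m * D P + b * A P := by
  rw [Pi.add_apply, Pi.smul_apply, Pi.smul_apply, nsmul_eq_mul, nsmul_eq_mul]

theorem sm1 (m : ℕ) (D : Place ℂ K → ℚ) (P : Place ℂ K) : (m • D) P = m * D P := by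
  rw [Pi.smul_apply, nsmul_eq_mul]

theorem lsp_iff {c : Place ℂ K → ℤ} {L A : Place ℂ K → ℚ} {m b : ℕ} {g : K} :
    g ∈ Lsp y c m (m • sh c L + b • A) ↔ SecD y (m • L + b • A) g := by
  refine forall₂_congr fun P _ => or_congr Iff.rfl ?_
  rw [sm2, sm2]
  unfold sh
  constructor <;> intro h <;> linarith

theorem lsp_iff' {c : Place ℂ K → ℤ} {L : Place ℂ K → ℚ} {m : ℕ} {g : K} :
    g ∈ Lsp y c m (m • sh c L) ↔ SecD y (m • L) g := by
  refine forall₂_congr fun P _ => or_congr Iff.rfl ?_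
  rw [sm1, sm1]
  unfold sh
  constructor <;> intro h <;> linarith

theorem sh_fin {c : Place ℂ K → ℤ} (hc : {P | IsPrimeDivisor y P ∧ c P ≠ 0}.Finite)
    {L : Place ℂ K → ℚ} (hL : {P | IsPrimeDivisor y P ∧ L P ≠ 0}.Finite) :
    {P | IsPrimeDivisor y P ∧ sh c L P ≠ 0}.Finite := by
  refine (hc.union hL).subset ?_
  rintro P ⟨hP, h⟩
  by_cases h1 : c P = 0
  · right
    refine ⟨hP, fun h2 => h ?_⟩
    unfold sh
    rw [h1, h2]
    simp
  · exact Or.inl ⟨hP, h1⟩

variable {x : Fin n → K} {E : Fin n → Derivation ℂ K K} {c : Place ℂ K → ℤ} {L : Place ℂ K → ℚ}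

theorem nuLt_of (hE : ∀ i j, E i (x j) = if i = j then 1 else 0) (hc' : IsDisc y E c) {j : ℕ}
    (h : NumDimLt y n (sh c L) j) : NuLt y n L j := by
  intro A hA ε hε
  obtain ⟨t, ht, m₀, h1⟩ := h A hA ε hε
  refine ⟨t, ht, m₀, fun m b hm hb u hu g hg hg0 => ?_⟩
  have h2 := h1 m b hm hb u hu (fun i => frm x m (g i)) E (fun i => by
    rw [isSection_iff hc' (frm_pluri x _ _), frm_self hE, lsp_iff]
    exact hg i) (by
    rw [frm_self hE]
    exact hg0)
  simp only [frm_self hE] at h2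
  exact h2

theorem nuLt_iff (hE : ∀ i j, E i (x j) = if i = j then 1 else 0) (hfr : IsFrame E)
    (hc' : IsDisc y E c) {j : ℕ} : NumDimLt y n (sh c L) j ↔ NuLt y n L j := by
  refine ⟨nuLt_of hE hc', fun h A hA ε hε => ?_⟩
  obtain ⟨t, ht, m₀, h1⟩ := h A hA ε hε
  refine ⟨t, ht, m₀, fun m b hm hb u hu ω E' hω hω0 => ?_⟩
  have h2 := h1 m b hm hb u hu (fun i => ω i E) (fun i => by
    rw [← lsp_iff (c := c)]
    exact (isSection_iff hc' (hω i).1).1 (hω i))
    (ratio_frame hfr (hω 0).1 (hω 0).1 hω0).1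
  have e1 : (fun i : Fin j => ω i.succ E / ω 0 E) = fun i : Fin j => ω i.succ E' / ω 0 E' := by
    funext i
    exact ((ratio_frame hfr (hω 0).1 (hω i.succ).1 hω0).2).symm
  rw [e1] at h2
  exact h2

/-- the Iitaka dimension is at most the numerical dimension -/
theorem iitaka_lt (hy : NormalModel y) (hn : Algebra.trdeg ℂ K = n)
    {L : Place ℂ K → ℚ} {j : ℕ} (hj : j ≤ n) (h : NuLt y n L j) : ¬ IitakaGe y L j := by
  rintro ⟨m, hm, g, hg, hg0, hind⟩
  obtain ⟨x, E, hx, hE⟩ := exists_crd hn (k := ℂ) (K := K)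
  have hfr : IsFrame E := fun F => ⟨fun j => F (x j),
    (Pool.Agent.W73.PG.PULL.expand x hx E hE F).symm⟩
  obtain ⟨c, hcfin, hc⟩ := exists_ordc hy hn hx hE
  have hc' : IsDisc y E c := hc
  refine kappa_lt hy hn hj ((nuLt_iff hE hfr hc').2 h) hm (ω := fun i => frm x m (g i)) (E := E)
    (fun i => ?_) ?_ ?_
  · rw [isSection_iff hc' (frm_pluri x _ _), frm_self hE, lsp_iff']
    exact hg i
  · rw [frm_self hE]
    exact hg0
  · simp only [frm_self hE]
    exact hind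

/-- maps which preserve the class of `L` pull back sections -/
theorem wpulls_of {φ : K ≃ₐ[ℂ] K} (hiso : PseudoAut φ y) (h : ClassLe φ y L) :
    WPulls y c (sh c L) φ := by
  obtain ⟨B, hB, h1⟩ := h
  intro A hA
  have hpr : ∀ Q, IsPrimeDivisor y Q → IsPrimeDivisor y (comap φ Q) := fun Q hQ =>
    (hiso (comap φ Q) Q fun g => rfl).2 hQ
  refine ⟨fun Q => B Q + A (comap φ Q), ⟨fun Q hQ => add_nonneg (hB.1 Q hQ) (hA.1 _ (hpr Q hQ)),
    ?_⟩, fun m hm => ?_⟩
  · have hinj : Set.InjOn (comap φ) (comap φ ⁻¹' {P | IsPrimeDivisor y P ∧ A P ≠ 0}) := by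
      intro Q _ Q' _ hQQ
      refine Place.ext (funext fun g => ?_)
      have h2 := congrArg (fun P : Place ℂ K => P.ord (φ.symm g)) hQQ
      change Q.ord (φ (φ.symm g)) = Q'.ord (φ (φ.symm g)) at h2
      rwa [AlgEquiv.apply_symm_apply] at h2
    refine (hB.2.union (hA.2.preimage hinj)).subset ?_
    rintro Q ⟨hQ, h0⟩
    by_cases h2 : B Q = 0
    · right
      refine ⟨hpr Q hQ, fun h3 => h0 ?_⟩
      change B Q + A (comap φ Q) = 0
      rw [h2, h3, add_zero]
    · exact Or.inl ⟨hQ, h2⟩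
  · obtain ⟨J, hJ, h2⟩ := h1 m hm
    refine ⟨J, hJ, fun b hb g hg => ?_⟩
    rw [lsp_iff] at hg ⊢
    intro Q hQ
    by_cases hg0 : g = 0
    · left
      rw [hg0, map_zero, mul_zero]
    right
    have h3 := (hg (comap φ Q) (hpr Q hQ)).resolve_left hg0
    have h4 := h2 (comap φ Q) Q hQ fun g => rfl
    have h5 : (comap φ Q).ord g = Q.ord (φ g) := rfl
    rw [h5] at h3
    rw [Q.ord_mul hJ (by rwa [Ne, map_eq_zero])]
    rw [sm2] at h3 ⊢
    have h6 : B Q ≤ b * B Q := by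
      have h7 : (1 : ℚ) ≤ b := by exact_mod_cast hb
      have h8 := hB.1 Q hQ
      nlinarith
    push_cast
    rw [mul_add]
    linarith

end

end Pool.Agent.N110.DV
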