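import Pool.Agent.N110.Defs
import Pool.Agent.N110.PA.NDefs

/-!
Definitions: sections, numerical dimension and Iitaka dimension of a divisor `L`, and birational
self-maps which preserve its class.
-/

set_option autoImplicit false

open FF Pool.Agent.W602.GT Pool.Agent.Y172 Pool.Agent.R887

namespace Pool.Agent.N110.DV

section

variable {K : Type} [Field K] [Algebra ℂ K] {N : ℕ}

/-- The rational function `g` is a section of the divisor `D` on `X`: `g = 0`, or `div g + D` is
effective. -/
def SecD (y : Fin (N + 1) → K) (D : Place ℂ K → ℚ) (g : K) : Prop :=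
  ∀ P, IsPrimeDivisor y P → g = 0 ∨ -(D P) ≤ P.ord g

/-- The numerical dimension of the divisor `L` on the variety `X` of dimension `n` is less than `j`:
the positive intersection product of `j` copies of `L` and `n - j` hyperplane sections is zero. This
means, for all effective divisors `A`: for all `ε > 0` there is `t > 0` such that for all large `m`
and all `b ≤ t m` the rational maps given by the sections `g 0, ..., g j` of `m L + b A` together
with `n - j` pencils `u` of hyperplane sections have degree at most `ε m ^ j`. -/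
def NuLt (y : Fin (N + 1) → K) (n : ℕ) (L : Place ℂ K → ℚ) (j : ℕ) : Prop :=
  ∀ A : Place ℂ K → ℚ, Effective y A → ∀ ε : ℝ, 0 < ε → ∃ t : ℝ, 0 < t ∧ ∃ m₀ : ℕ, ∀ m b : ℕ,
    m₀ ≤ m → (b : ℝ) ≤ t * m → ∀ u : Fin (n - j) → K, (∀ a, IsPencil y (u a)) →
    ∀ g : Fin (j + 1) → K, (∀ i, SecD y (m • L + b • A) (g i)) → g 0 ≠ 0 →
      (degreeOver u (fun i : Fin j => g i.succ / g 0) : ℝ) ≤ ε * m ^ j

/-- The Iitaka dimension of the divisor `L` is at least `k`: there are sections `g 0, ..., g k` of
`m L` for some `m ≥ 1` such that the functions `g 1 / g 0, ..., g k / g 0` are algebraically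
independent. In particular it is at least `0` if `m L` has a section `g 0 ≠ 0`. -/
def IitakaGe (y : Fin (N + 1) → K) (L : Place ℂ K → ℚ) (k : ℕ) : Prop :=
  ∃ m : ℕ, 1 ≤ m ∧ ∃ g : Fin (k + 1) → K, (∀ j, SecD y (m • L) (g j)) ∧ g 0 ≠ 0 ∧
    AlgebraicIndependent ℂ (fun i : Fin k => g i.succ / g 0)

/-- The Iitaka dimension and the numerical dimension of `L` are equal and not `-∞`: for some `k` the
Iitaka dimension is at least `k` and the numerical dimension is less than `k + 1`. -/
def AbundantD (y : Fin (N + 1) → K) (n : ℕ) (L : Place ℂ K → ℚ) : Prop :=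
  ∃ k : ℕ, IitakaGe y L k ∧ NuLt y n L (k + 1)

/-- Let `f : X ⇢ X` be the birational self-map given by the automorphism `φ` of the function field,
an isomorphism in codimension one. The class of `f^* L` is at most the class of `L`: the divisor
`L - f^* L` is pseudo-effective, that is, for some effective divisor `B` the divisors
`m (L - f^* L) + B` are linearly equivalent to effective divisors for all `m ≥ 1`. For a group of
such maps this means that `f^* L` is numerically equivalent to `L` (the difference and its negative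
are pseudo-effective). -/
def ClassLe (φ : K ≃ₐ[ℂ] K) (y : Fin (N + 1) → K) (L : Place ℂ K → ℚ) : Prop :=
  ∃ B, Effective y B ∧ ∀ m : ℕ, 1 ≤ m → ∃ h : K, h ≠ 0 ∧ ∀ P Q : Place ℂ K, IsPrimeDivisor y Q →
    (∀ g, P.ord g = Q.ord (φ g)) → 0 ≤ (Q.ord h : ℚ) + m * (L Q - L P) + B Q

/-- The divisor `L` on the variety `X` of dimension `n` is nef: for all `q ≥ 1` the divisor
`q L + H`, `H` being a hyperplane section `y i = 0`, is semiample, that is, `m (q L + H)` is
generated by its sections `g` at the centres of all prime divisors `Q` over `X` for some `m ≥ 1`. -/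
def NefD (y : Fin (N + 1) → K) (n : ℕ) (L : Place ℂ K → ℚ) : Prop :=
  ∀ i, y i ≠ 0 → ∀ q : ℕ, 1 ≤ q → ∃ m : ℕ, 1 ≤ m ∧ ∀ Q : Place ℂ K, Divisorial n Q →
    ∃ g : K, g ≠ 0 ∧
      (∀ P l, IsPrimeDivisor y P → Centred y l P →
        -(m * q * L P) - m * P.ord (y i / y l) ≤ P.ord g) ∧
      ∀ P l, IsPrimeDivisor y P → Through y P Q → Centred y l P →
        (P.ord g : ℚ) = -(m * q * L P) - m * P.ord (y i / y l)

end

end Pool.Agent.N110.DV
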