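import Pool.Agent.N110.DV.SDefs
import Pool.Agent.N110.DV.Conv
import Pool.Agent.N110.IM.Img

/-!
The numerical dimension of divisors on images; the pull back of sections by rational maps which
contract no divisors.
-/

set_option autoImplicit false
set_option linter.overlappingInstances false
set_option linter.unusedSectionVars false

open FF Module MvPolynomial Pool.Agent.W602.GT Pool.Agent.W603.LV
open Pool.Agent.Y172 Pool.Agent.Y191 Pool.Agent.R887 Pool.Agent.N110.IM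

namespace Pool.Agent.N110.DV

section

variable {K K' : Type} [Field K] [Algebra ℂ K] [Field K'] [Algebra ℂ K'] {N N' n : ℕ}
  {y : Fin (N + 1) → K} {y' : Fin (N' + 1) → K'}

/-- **The pull back of sections.** -/
theorem epull_of (hn : Algebra.trdeg ℂ K = n) (hn' : Algebra.trdeg ℂ K' = n)
    (hess' : Algebra.EssFiniteType ℂ K') {π : K →ₐ[ℂ] K'}
    {L : Place ℂ K → ℚ} {L' : Place ℂ K' → ℚ} (h : ImgClassLe π y L y' L')
    {A : Place ℂ K → ℚ} (hA : Effective y A) :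
    ∃ B, Effective y' B ∧ ∀ m : ℕ, 1 ≤ m → ∃ J : K', J ≠ 0 ∧ ∀ b : ℕ, 1 ≤ b → ∀ g,
      SecD y (m • L + b • A) g → SecD y' (m • L' + b • B) (J * π g) := by
  classical
  obtain ⟨B0, hB0, h1⟩ := h
  let _ : Algebra K K' := π.toRingHom.toAlgebra
  have hst : IsScalarTower ℂ K K' :=
    IsScalarTower.of_algebraMap_eq fun c => (π.commutes c).symm
  have hfd : FiniteDimensional K K' := finite_map hn hn'
  have hov : ∀ Q : Place ℂ K', LiesOver π Q (bel K Q) (ram K Q) := fun Q => over_bel K Q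
  have hpr : ∀ Q, IsPrimeDivisor y' Q → IsPrimeDivisor y (bel K Q) := by
    intro Q hQ
    obtain ⟨J, hJ, h2⟩ := h1 1 le_rfl
    exact (h2 Q hQ _ _ (hov Q)).1
  refine ⟨fun Q => B0 Q + ram K Q * A (bel K Q), ⟨fun Q hQ => add_nonneg (hB0.1 Q hQ)
    (mul_nonneg (Nat.cast_nonneg _) (hA.1 _ (hpr Q hQ))), ?_⟩, fun m hm => ?_⟩
  · have h3 : {Q : Place ℂ K' | bel K Q ∈ {P | IsPrimeDivisor y P ∧ A P ≠ 0}}.Finite :=
      finite_bel K hA.2
    refine (hB0.2.union h3).subset ?_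
    rintro Q ⟨hQ, h0⟩
    by_cases h2 : B0 Q = 0
    · right
      refine ⟨hpr Q hQ, fun h3 => h0 ?_⟩
      simp only []
      rw [h2, h3, mul_zero, add_zero]
    · exact Or.inl ⟨hQ, h2⟩
  · obtain ⟨J, hJ, h2⟩ := h1 m hm
    refine ⟨J, hJ, fun b hb g hg Q hQ => ?_⟩
    by_cases hg0 : g = 0
    · left
      rw [hg0, map_zero, mul_zero]
    right
    have h3 := (hg (bel K Q) (hpr Q hQ)).resolve_left hg0
    have h4 := (h2 Q hQ _ _ (hov Q)).2
    have h5 : (Q.ord (π g) : ℚ) = ram K Q * (bel K Q).ord g := by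
      have := (hov Q).2 g
      rw [this]
      push_cast
      rfl
    rw [Q.ord_mul hJ (by rwa [Ne, map_eq_zero])]
    rw [sm2] at h3 ⊢
    have h6 : B0 Q ≤ b * B0 Q := by
      have h7 : (1 : ℚ) ≤ b := by exact_mod_cast hb
      have h8 := hB0.1 Q hQ
      nlinarith
    have h9 : (0 : ℚ) ≤ ram K Q := Nat.cast_nonneg _
    have h10 := mul_le_mul_of_nonneg_left h3 h9
    push_cast
    rw [h5]
    rw [mul_add]
    nlinarith

/-- **The numerical dimension of images.** -/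
theorem nuLt_img (hy : NormalModel y) (hy' : NormalModel y') (hn : Algebra.trdeg ℂ K = n)
    (hn' : Algebra.trdeg ℂ K' = n) {L : Place ℂ K → ℚ} {L' : Place ℂ K' → ℚ} {π : K →ₐ[ℂ] K'}
    (hπ : ImgClassLe π y L y' L') {j : ℕ} (hj : j ≤ n)
    (h : NuLt y' n L' j) : NuLt y n L j := by
  classical
  intro A hA ε hε
  obtain ⟨i, hi⟩ := hy.ne
  obtain ⟨i', hi'⟩ := hy'.ne
  have hess' := hy'.ess
  obtain ⟨A', hA', hpull⟩ := epull_of hn hn' hess' hπ hA
  obtain ⟨B, hB⟩ := replace_img (y := y) hy' hn' hi' π hi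
  obtain ⟨t, ht, m₀, hm₀⟩ := h A' hA' (ε / ((B : ℝ) ^ (n - j) + 1)) (by positivity)
  obtain ⟨q₀, hq₀⟩ := exists_nat_gt (1 / t)
  refine ⟨t, ht, max m₀ (q₀ + 1), fun m b hm hb u hu g hg hg0 => ?_⟩
  have hm1 : 1 ≤ m := le_trans (Nat.le_add_left 1 q₀) ((le_max_right _ _).trans hm)
  have hmt : (1 : ℝ) ≤ t * m := by
    have h1 : (q₀ : ℝ) ≤ m := by
      exact_mod_cast (Nat.le_succ q₀).trans ((le_max_right _ _).trans hm)
    rw [div_lt_iff₀ ht] at hq₀
    nlinarith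
  obtain ⟨w, hw⟩ : ∃ w : Fin j → K, w = fun a => g a.succ / g 0 := ⟨_, rfl⟩
  rw [← hw]
  -- the sections
  obtain ⟨J, hJ, hpull'⟩ := hpull m hm1
  obtain ⟨b', hb'⟩ : ∃ b', b' = max b 1 := ⟨_, rfl⟩
  have hb1 : 1 ≤ b' := by rw [hb']; exact le_max_right _ _
  have hbt : (b' : ℝ) ≤ t * m := by
    rw [hb']
    push_cast
    exact max_le hb hmt
  obtain ⟨g', hg'⟩ : ∃ g' : Fin (j + 1) → K', ∀ a, g' a = J * π (g a) := ⟨_, fun _ => rfl⟩
  have hsec : ∀ a, SecD y' (m • L' + b' • A') (g' a) := by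
    intro a
    rw [hg']
    refine hpull' b' hb1 _ fun P hP => ?_
    refine (hg a P hP).imp_right fun h1 => le_trans ?_ h1
    rw [sm2, sm2]
    have h2 := hA.1 P hP
    have h3 : (b : ℚ) ≤ b' := by
      rw [hb']
      exact_mod_cast le_max_left b 1
    have h4 := mul_le_mul_of_nonneg_right h3 h2
    linarith
  have hrat : (fun a : Fin j => g' a.succ / g' 0) = fun a => π (w a) := by
    funext a
    rw [hg', hg', hw, mul_div_mul_left _ _ hJ, ← map_div₀]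
  -- the degrees
  obtain ⟨hpos, e0⟩ := mapDegree_img hn hn' hess' π u w
  have e1 : degreeOver (fun a => π (u a)) (fun a => π (w a)) =
      degreeOver u w * mapDegree π := by
    rw [degreeOver_eq, degreeOver_eq]
    exact e0
  have e2 : degreeOver (fun a => π (u a)) (fun a => π (w a)) =
      dm ℂ ((toM u).map π + toM (fun a => π (w a))) := by
    refine deg_dm ?_ (toM_set _)
    ext x
    change x ∈ (toM u).map π ↔ _
    rw [Multiset.mem_map, Set.mem_range]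
    constructor
    · rintro ⟨a, ha, rfl⟩
      obtain ⟨j, rfl⟩ := mem_toM.1 ha
      exact ⟨j, rfl⟩
    · rintro ⟨j, rfl⟩
      exact ⟨u j, mem_toM.2 ⟨j, rfl⟩, rfl⟩
  obtain ⟨Q', hQ'1, hQ'2, hle⟩ := hB (toM u) (toM (fun a => π (w a)))
    (by rw [Multiset.card_add, Multiset.card_map, toM_card, toM_card]; omega) (fun z hz => by
      obtain ⟨a, rfl⟩ := mem_toM.1 hz
      exact hu a)
  rw [toM_card] at hQ'1 hle
  obtain ⟨v, hv⟩ := exists_fin Q' hQ'1
  have hvp : ∀ a, IsPencil y' (v a) := by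
    intro a
    refine pencil_span hi' (hQ'2 _ ?_)
    have : v a ∈ {x | x ∈ Q'} := by
      rw [hv]
      exact ⟨a, rfl⟩
    exact this
  have e3 : degreeOver v (fun a => π (w a)) = dm ℂ (Q' + toM (fun a => π (w a))) :=
    deg_dm hv (toM_set _)
  have h3 := hm₀ m b' (le_trans (le_max_left _ _) hm) hbt v hvp g' hsec (by
    rw [hg']
    exact mul_ne_zero hJ (by rwa [Ne, map_eq_zero]))
  rw [hrat] at h3
  have h4 : degreeOver u w ≤ B ^ (n - j) * degreeOver v (fun a => π (w a)) := by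
    rw [e3]
    refine le_trans ?_ hle
    rw [← e2, e1]
    exact Nat.le_mul_of_pos_right _ hpos
  have h5 : (degreeOver u w : ℝ) ≤ (B : ℝ) ^ (n - j) * degreeOver v (fun a => π (w a)) := by
    exact_mod_cast h4
  refine h5.trans ?_
  have h6 : (B : ℝ) ^ (n - j) * degreeOver v (fun a => π (w a)) ≤
      (B : ℝ) ^ (n - j) * (ε / ((B : ℝ) ^ (n - j) + 1) * m ^ j) :=
    mul_le_mul_of_nonneg_left h3 (by positivity)
  refine h6.trans ?_
  have h7 : (B : ℝ) ^ (n - j) * (ε / ((B : ℝ) ^ (n - j) + 1) * m ^ j) =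
      ((B : ℝ) ^ (n - j) / ((B : ℝ) ^ (n - j) + 1)) * (ε * m ^ j) := by ring
  rw [h7]
  have h8 : (B : ℝ) ^ (n - j) / ((B : ℝ) ^ (n - j) + 1) ≤ 1 := by
    rw [div_le_one (by positivity)]
    linarith
  have h9 : 0 ≤ ε * (m : ℝ) ^ j := by positivity
  nlinarith

end

section

variable {K : Type} [Field K] [Algebra ℂ K] {N n : ℕ} {y : Fin (N + 1) → K}

/-- weak pull back of sections by endomorphisms -/
def WEPulls (y : Fin (N + 1) → K) (c : Place ℂ K → ℤ) (Δ : Place ℂ K → ℚ) (ψ : K →ₐ[ℂ] K) :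
    Prop :=
  ∀ A, Effective y A → ∃ B, Effective y B ∧ ∀ m : ℕ, 1 ≤ m → ∃ J : K, J ≠ 0 ∧
    ∀ b : ℕ, 1 ≤ b → ∀ g ∈ Lsp y c m (m • Δ + b • A), J * ψ g ∈ Lsp y c m (m • Δ + b • B)

variable {c : Place ℂ K → ℤ} {Δ : Place ℂ K → ℚ}

theorem WEPulls.one : WEPulls y c Δ 1 := fun A hA =>
  ⟨A, hA, fun _ _ => ⟨1, one_ne_zero, fun _ _ g hg => by rw [one_mul]; exact hg⟩⟩

theorem WEPulls.mul {φ ψ : K →ₐ[ℂ] K} (h1 : WEPulls y c Δ φ) (h2 : WEPulls y c Δ ψ) :
    WEPulls y c Δ (φ * ψ) := by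
  intro A hA
  obtain ⟨B1, hB1, h3⟩ := h2 A hA
  obtain ⟨B2, hB2, h4⟩ := h1 B1 hB1
  refine ⟨B2, hB2, fun m hm => ?_⟩
  obtain ⟨J1, hJ1, h5⟩ := h3 m hm
  obtain ⟨J2, hJ2, h6⟩ := h4 m hm
  refine ⟨J2 * φ J1, mul_ne_zero hJ2 (by rwa [Ne, map_eq_zero]), fun b hb g hg => ?_⟩
  have h7 := h6 b hb _ (h5 b hb g hg)
  rw [map_mul, ← mul_assoc] at h7
  exact h7

theorem WEPulls.word {S : Set (K →ₐ[ℂ] K)} (h : ∀ φ ∈ S, WEPulls y c Δ φ) (w : List (K →ₐ[ℂ] K))
    (hw : ∀ φ ∈ w, φ ∈ S) : WEPulls y c Δ w.prod := by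
  induction w with
  | nil => exact WEPulls.one
  | cons φ w ih =>
    rw [List.prod_cons]
    exact (h φ (hw φ (by simp))).mul (ih fun ψ hψ => hw ψ (by simp [hψ]))

theorem wepulls_of (hy : NormalModel y) (hn : Algebra.trdeg ℂ K = n) {φ : K →ₐ[ℂ] K}
    {L : Place ℂ K → ℚ} (h : SelfClassLe φ y L) : WEPulls y c (sh c L) φ := by
  intro A hA
  obtain ⟨B, hB, h1⟩ := epull_of hn hn hy.ess h hA
  refine ⟨B, hB, fun m hm => ?_⟩
  obtain ⟨J, hJ, h2⟩ := h1 m hm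
  refine ⟨J, hJ, fun b hb g hg => ?_⟩
  rw [lsp_iff] at hg ⊢
  exact h2 b hb g hg

end

end Pool.Agent.N110.DV
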