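import Pool.Agent.N110.DV.Conv
import Pool.Agent.N110.DV.R
import Pool.Agent.N110.DV.J
import Pool.Agent.N110.RK.Main
import Pool.Agent.N110.JPlateau
import Pool.Agent.N110.NV.Fin
import Pool.Agent.R887.NefP

/-!
Birational self-maps which preserve the class of a divisor `L`: the rank theorem, the plateau
theorem, and triviality of nef divisors of numerical dimension zero.
-/

set_option autoImplicit false
set_option linter.overlappingInstances false
set_option linter.unusedSectionVars false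

open FF Module MvPolynomial Pool.Agent.W602.GT Pool.Agent.W603.LV
open Pool.Agent.Y172 Pool.Agent.Y191 Pool.Agent.R887 Pool.Agent.N110.RK
open scoped ENNReal Topology

namespace Pool.Agent.N110.DV

section

variable {K : Type} [Field K] [Algebra ℂ K] {N n : ℕ} {y : Fin (N + 1) → K} {L : Place ℂ K → ℚ}

/-- the exact numerical dimension -/
theorem exists_nuD {ν : ℕ} (hν : ν ≤ n) (hnum : ¬ NuLt y n L ν) :
    ∃ ν', ν ≤ ν' ∧ ν' ≤ n ∧ ¬ NuLt y n L ν' ∧ (ν' + 1 ≤ n → NuLt y n L (ν' + 1)) := by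
  classical
  obtain ⟨ν', hν'⟩ : ∃ ν', ν' = Nat.findGreatest (fun k => ¬ NuLt y n L k) n := ⟨_, rfl⟩
  have e1 : ν ≤ ν' := by rw [hν']; exact Nat.le_findGreatest hν hnum
  have e2 : ν' ≤ n := by rw [hν']; exact Nat.findGreatest_le n
  have e3 : ¬ NuLt y n L ν' := by
    rw [hν']
    exact Nat.findGreatest_spec (P := fun k => ¬ NuLt y n L k) hν hnum
  refine ⟨ν', e1, e2, e3, fun h => ?_⟩
  have := Nat.findGreatest_is_greatest (P := fun k => ¬ NuLt y n L k) (n := n)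
    (k := ν' + 1) (by rw [← hν']; omega) h
  exact not_not.1 this

/-- **The rank theorem** for divisors, without hypothesis on the growth. -/
theorem rank_spaceD (hy : NormalModel y) (hn : Algebra.trdeg ℂ K = n) (hn0 : 0 < n)
    (hL : {P | IsPrimeDivisor y P ∧ L P ≠ 0}.Finite) {r : ℕ}
    {φ : (Fin r → ℤ) → (K ≃ₐ[ℂ] K)} (hφ : ∀ u v, φ (u + v) = φ u * φ v)
    (hiso : ∀ v, PseudoAut (φ v) y) (hcl : ∀ v, ClassLe (φ v) y L) {ν : ℕ} (hν : ν ≤ n)
    (hnum : ¬ NuLt y n L ν) :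
    ∃ W : Submodule ℝ (Fin r → ℝ), (r + ν + 1 ≤ finrank ℝ W + n ∨ W = ⊤) ∧
      ∀ w ∈ W, Subexp φ y n w := by
  obtain ⟨i, hi⟩ := hy.ne
  obtain ⟨x, E, hx, hE⟩ := exists_crd hn (k := ℂ) (K := K)
  have hfr : IsFrame E := fun F => ⟨fun j => F (x j),
    (Pool.Agent.W73.PG.PULL.expand x hx E hE F).symm⟩
  obtain ⟨c, hcfin, hc⟩ := exists_ordc hy hn hx hE
  have hc' : IsDisc y E c := hc
  obtain ⟨ν', e1, e2, e3, e4⟩ := exists_nuD hν hnum
  obtain ⟨m, M, c₁, ε, h⟩ := exists_rsysW hy hn hn0 hi hE hfr hcfin hc' (sh_fin hcfin hL) hφ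
    (fun v => wpulls_of (hiso v) (hcl v)) e2 (fun h => e3 ((nuLt_iff hE hfr hc').1 h))
    (fun h => (nuLt_iff hE hfr hc').2 (e4 h))
  obtain ⟨W, hW1, hW2, hW⟩ := rank_dir stmJ stmC h
  refine ⟨W, ?_, fun w hw ε hε => ?_⟩
  · rcases Nat.lt_or_ge ν' n with h1 | h1
    · have := hW1 h1
      left
      omega
    · right
      exact hW2 (le_antisymm e2 h1)
  · obtain ⟨B, hB⟩ := hW w hw ε hε
    refine ⟨B, fun l v hv => ?_⟩
    have h1 := hB l v hv
    rw [mixedDegree_eq hy hn hi (φ v) (by omega : 1 ≤ n), Multiset.replicate_one,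
      Multiset.singleton_add, ← ENNReal.ofReal_natCast]
    exact ENNReal.ofReal_le_ofReal h1

/-- **The rank theorem** for divisors. -/
theorem rank_mainD (hy : NormalModel y) (hn : Algebra.trdeg ℂ K = n) (hn0 : 0 < n)
    (hL : {P | IsPrimeDivisor y P ∧ L P ≠ 0}.Finite) {r s : ℕ} (hs : 0 < s)
    {φ : (Fin r → ℤ) → (K ≃ₐ[ℂ] K)} (hφ : ∀ u v, φ (u + v) = φ u * φ v)
    (hiso : ∀ v, PseudoAut (φ v) y) (hcl : ∀ v, ClassLe (φ v) y L)
    (hrank : GrowthRankGe φ y n s) : s < n ∧ NuLt y n L (n - s) := by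
  have hsn : s < n := by
    obtain ⟨W, hW1, hW⟩ := rank_space_zero hy hn hn0 hφ
    have := hrank W hW
    omega
  refine ⟨hsn, ?_⟩
  by_contra hnum
  obtain ⟨W, hW1, hW⟩ := rank_spaceD hy hn hn0 hL hφ hiso hcl (Nat.sub_le n s) hnum
  have h2 := hrank W hW
  rcases hW1 with h1 | rfl
  · omega
  · rw [finrank_top, finrank_fin_fun] at h2
    omega

/-- **The plateau theorem** for divisors, for the largest `ν`. -/
theorem plateauD_aux (hy : NormalModel y) (hn : Algebra.trdeg ℂ K = n)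
    (hL : {P | IsPrimeDivisor y P ∧ L P ≠ 0}.Finite)
    {S : Set (K ≃ₐ[ℂ] K)} (hiso : ∀ φ ∈ S, PseudoAut φ y) (h1 : ∀ φ ∈ S, ClassLe φ y L)
    (h2 : ∀ φ ∈ S, ClassLe φ⁻¹ y L)
    {C₁ : ℕ} (hC₁ : ∀ φ ∈ S, mixedDegree φ y n 1 ≤ C₁) {ν : ℕ} (hν : ν ≤ n)
    (hnum : ¬ NuLt y n L ν) (hnum' : ν + 1 ≤ n → NuLt y n L (ν + 1)) :
    ∃ j, j + ν ≤ n ∧ ∀ a ≤ ν, ∀ p ≤ n, jointDegree S y n p ≤ jointDegree S y n (j + a) := by
  classical
  rcases Nat.eq_zero_or_pos n with rfl | hn0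
  · refine ⟨0, by omega, fun a ha p hp => ?_⟩
    obtain rfl : a = 0 := by omega
    obtain rfl : p = 0 := by omega
    exact le_rfl
  obtain ⟨i, hi⟩ := hy.ne
  obtain ⟨x, E, hx, hE⟩ := exists_crd hn (k := ℂ) (K := K)
  have hfr : IsFrame E := fun F => ⟨fun j => F (x j),
    (Pool.Agent.W73.PG.PULL.expand x hx E hE F).symm⟩
  obtain ⟨c, hcfin, hc⟩ := exists_ordc hy hn hx hE
  have hc' : IsDisc y E c := hc
  have hinv : ∀ φ ∈ S, PseudoAut φ⁻¹ y := by
    intro φ hφ P Q hPQ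
    refine (hiso φ hφ Q P fun g => ?_).symm
    have h3 := hPQ (φ g)
    have h4 : φ⁻¹ (φ g) = g := φ.symm_apply_apply g
    rw [h4] at h3
    exact h3.symm
  by_contra hcon
  push Not at hcon
  obtain ⟨d, hd⟩ : ∃ d : ℕ → ℕ → ℝ≥0∞, ∀ p l, d p l = ⨆ (w : List (K ≃ₐ[ℂ] K))
      (_ : w.length = l) (_ : ∀ φ ∈ w, φ ∈ S), mixedDegree w.prod y n p := ⟨_, fun _ _ => rfl⟩
  have hdyn : ∀ p, jointDegree S y n p =
      Filter.limsup (fun l : ℕ => d p l ^ (1 / (l : ℝ))) Filter.atTop := by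
    intro p
    unfold jointDegree
    congr 1
    funext l
    rw [hd]
  obtain ⟨p0, hp0, hmax⟩ := Finset.exists_max_image (Finset.range (n + 1))
    (fun p => jointDegree S y n p) ⟨0, by simp⟩
  rw [Finset.mem_range] at hp0
  have hcon' : ∀ j, j + ν ≤ n → ∃ a ≤ ν, jointDegree S y n (j + a) < jointDegree S y n p0 := by
    intro j hj
    obtain ⟨a, ha, p, hp, hlt⟩ := hcon j hj
    exact ⟨a, ha, hlt.trans_le (hmax p (Finset.mem_range.2 (by omega)))⟩
  choose a ha halt using hcon'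
  obtain ⟨B, hB⟩ : ∃ B : ℝ≥0∞, B = (Finset.range (n + 1)).sup fun j =>
      if hj : j + ν ≤ n then jointDegree S y n (j + a j hj) else 0 := ⟨_, rfl⟩
  have hBlt : B < jointDegree S y n p0 := by
    rw [hB, Finset.sup_lt_iff]
    · intro j _
      split_ifs with hj
      · exact halt j hj
      · exact zero_le.trans_lt (halt 0 (by omega))
    · exact zero_le.trans_lt (halt 0 (by omega))
  obtain ⟨L₁, hL1, hL2⟩ := ENNReal.lt_iff_exists_nnreal_btwn.1 hBlt
  obtain ⟨L', hL3, hL4⟩ := ENNReal.lt_iff_exists_nnreal_btwn.1 hL2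
  have hL0 : (0 : ℝ) < L₁ := by
    have : (0 : ℝ≥0∞) < L₁ := zero_le.trans_lt hL1
    exact_mod_cast this
  have hLL' : (L₁ : ℝ) < L' := by exact_mod_cast hL3
  obtain ⟨A, hA⟩ := growth_jointW hy hn hn0 hi hE hfr hcfin hc' (sh_fin hcfin hL)
    (fun φ hφ => wpulls_of (hiso φ hφ) (h1 φ hφ)) (fun φ hφ => wpulls_of (hinv φ hφ) (h2 φ hφ))
    (C₁ := C₁) (fun φ hφ => by
    have h3 := hC₁ φ hφ
    rw [mixedDegree_eq hy hn hi φ (by omega : 1 ≤ n), Nat.cast_le, Multiset.replicate_one,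
      Multiset.singleton_add] at h3
    exact h3) hν (fun h => hnum ((nuLt_iff hE hfr hc').1 h))
    (fun h => (nuLt_iff hE hfr hc').2 (hnum' h)) hL0 hLL' (by
    intro j hj
    have h3 : jointDegree S y n (j + a j hj) < ENNReal.ofReal L₁ := by
      rw [ENNReal.ofReal_coe_nnreal]
      refine lt_of_le_of_lt ?_ hL1
      rw [hB]
      have h4 := Finset.le_sup (s := Finset.range (n + 1))
        (f := fun j => if hj : j + ν ≤ n then jointDegree S y n (j + a j hj) else 0)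
        (Finset.mem_range.2 (by omega : j < n + 1))
      simp only [dif_pos hj] at h4
      exact h4
    have ha' := ha j hj
    rw [hdyn] at h3
    obtain ⟨l0, hl0⟩ := ev_of_limsup hL0 h3
    refine ⟨a j hj, ha', 1, l0, fun w hw hwS => ?_⟩
    have h4 := hl0 w.length hw
    have h5 : mixedDegree w.prod y n (j + a j hj) ≤ d (j + a j hj) w.length := by
      rw [hd]
      exact le_iSup_of_le w (le_iSup_of_le rfl (le_iSup_of_le hwS le_rfl))
    have h6 := h5.trans h4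
    rw [mixedDegree_eq hy hn hi w.prod (by omega)] at h6
    have h7 := (ENNReal.le_ofReal_iff_toReal_le (ENNReal.natCast_ne_top _) (by positivity)).1 h6
    rw [one_mul]
    simpa using h7)
  have h3 : jointDegree S y n p0 ≤ ENNReal.ofReal L' := by
    rw [hdyn p0]
    refine limsup_of_bd (A := A) (hL0.trans hLL') fun l => ?_
    rw [hd]
    refine iSup_le fun w => iSup_le fun hw => iSup_le fun hwS => ?_
    rw [mixedDegree_eq hy hn hi w.prod (by omega : p0 ≤ n), ← ENNReal.ofReal_natCast]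
    refine ENNReal.ofReal_le_ofReal ?_
    rw [← hw]
    exact hA w hwS p0 (by omega)
  rw [ENNReal.ofReal_coe_nnreal] at h3
  exact absurd hL4 (not_lt.2 h3)

/-- **The plateau theorem** for divisors. -/
theorem plateauD (hy : NormalModel y) (hn : Algebra.trdeg ℂ K = n)
    (hL : {P | IsPrimeDivisor y P ∧ L P ≠ 0}.Finite)
    {S : Set (K ≃ₐ[ℂ] K)} (hiso : ∀ φ ∈ S, PseudoAut φ y) (h1 : ∀ φ ∈ S, ClassLe φ y L)
    (h2 : ∀ φ ∈ S, ClassLe φ⁻¹ y L)
    {C₁ : ℕ} (hC₁ : ∀ φ ∈ S, mixedDegree φ y n 1 ≤ C₁) {ν : ℕ} (hν : ν ≤ n)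
    (hnum : ¬ NuLt y n L ν) :
    ∃ j, j + ν ≤ n ∧ ∀ a ≤ ν, ∀ p ≤ n, jointDegree S y n p ≤ jointDegree S y n (j + a) := by
  obtain ⟨ν', e1, e2, e3, e4⟩ := exists_nuD hν hnum
  obtain ⟨j, hj, h⟩ := plateauD_aux hy hn hL hiso h1 h2 hC₁ e2 e3 e4
  exact ⟨j, by omega, fun a ha p hp => h a (by omega) p hp⟩

/-- the order of a form, in terms of its value on a frame -/
theorem ordEq_iff {E : Fin n → Derivation ℂ K K} {c : Place ℂ K → ℤ} (hc : IsDisc y E c)
    {P : Place ℂ K} (hP : IsPrimeDivisor y P) {m : ℕ} {ω : (Fin n → Derivation ℂ K K) → K}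
    (hω : IsPluri m ω) {r : ℚ} (h0 : ω E ≠ 0) :
    OrdEq P ω r ↔ (m * c P + P.ord (ω E) : ℚ) = r := by
  refine ⟨fun h => val_eq hc hP hω h h0, fun h => ?_⟩
  have h1 : OrdGe P ω r := (hc P hP m ω hω r).2 (Or.inr h.ge)
  refine ⟨h1, ?_⟩
  have h2 : ¬ OrdGe P ω (r + 1) := by
    intro h3
    have h4 := ((hc P hP m ω hω (r + 1)).1 h3).resolve_left h0
    linarith
  unfold OrdGe at h2
  push Not at h2
  obtain ⟨E', hE', h3, h4⟩ := h2
  refine ⟨E', hE', h3, ?_⟩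
  have h5 := (h1 E' hE').resolve_left h3
  obtain ⟨z, hz⟩ : ∃ z : ℤ, r = z := ⟨m * c P + P.ord (ω E), by rw [← h]; push_cast; ring⟩
  rw [hz] at h4 h5 ⊢
  have h6 : P.ord (ω E') < z + 1 := by exact_mod_cast h4
  have h7 : z ≤ P.ord (ω E') := by exact_mod_cast h5
  have h8 : P.ord (ω E') = z := by omega
  rw [h8]

/-- nef divisors as log canonical divisors -/
theorem logNef_of {x : Fin n → K} {E : Fin n → Derivation ℂ K K} {c : Place ℂ K → ℤ}
    (hE : ∀ i j, E i (x j) = if i = j then 1 else 0) (hc' : IsDisc y E c) (h : NefD y n L) :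
    LogNef y n (sh c L) := by
  intro i hi q hq
  obtain ⟨m, hm, h1⟩ := h i hi q hq
  refine ⟨m, hm, fun Q hQ => ?_⟩
  obtain ⟨g, hg0, h2, h3⟩ := h1 Q hQ
  have hself : (frm x (m * q) g : (Fin n → Derivation ℂ K K) → K) E = g := frm_self hE _ g
  refine ⟨frm x (m * q) g, ⟨frm_pluri x _ _, fun P l hP hl => ?_⟩, fun P l hP hT hl => ?_⟩
  · refine (hc' P hP _ _ (frm_pluri x _ _) _).2 (Or.inr ?_)
    rw [hself]
    have h4 := h2 P l hP hl
    unfold sh
    push_cast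
    linarith
  · refine (ordEq_iff hc' hP (frm_pluri x _ _) (by rw [hself]; exact hg0)).2 ?_
    rw [hself]
    have h4 := h3 P l hP hT hl
    unfold sh
    push_cast
    linarith

/-- **Nef divisors of numerical dimension zero** on varieties of irregularity zero are torsion. -/
theorem trivialD (hy : NormalModel y) (hn : Algebra.trdeg ℂ K = n) (hn0 : 0 < n)
    (hL : {P | IsPrimeDivisor y P ∧ L P ≠ 0}.Finite) (hq : IrregularityZero y)
    (hnef : NefD y n L) (hnum : NuLt y n L 1) :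
    ∃ m : ℕ, 1 ≤ m ∧ ∃ g : K, g ≠ 0 ∧ ∀ P, IsPrimeDivisor y P → (P.ord g : ℚ) = -(m * L P) := by
  obtain ⟨x, E, hx, hE⟩ := exists_crd hn (k := ℂ) (K := K)
  have hfr : IsFrame E := fun F => ⟨fun j => F (x j),
    (Pool.Agent.W73.PG.PULL.expand x hx E hE F).symm⟩
  obtain ⟨c, hcfin, hc⟩ := exists_ordc hy hn hx hE
  have hc' : IsDisc y E c := hc
  have hnef' := logNef_of hE hc' hnef
  have hnum' := (nuLt_iff (L := L) hE hfr hc').2 hnum
  obtain ⟨m, hm, ω, hω0, hω⟩ := NV.nonvanishing hy hn hn0 (sh_fin hcfin hL)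
    (NV.psef_of_nef hy hn hn0 hnef') hnum' hq
  have hωE : ω E ≠ 0 := fun h0 => hω0 (pluri_zero hfr hω.1 h0)
  refine ⟨m, hm, ω E, hωE, fun P hP => ?_⟩
  have h1 := nef_trivialP hy hn hn0 hnum' hnef' hm hω hω0 P hP
  have h2 := (ordEq_iff hc' hP hω.1 hωE).1 h1
  unfold sh at h2
  linarith

end

end Pool.Agent.N110.DV
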