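import Pool.Agent.N110.DV.Defs

/-!
Definitions: divisors on varieties which are dominated by other varieties, and rational self-maps
which preserve the class of a divisor.
-/

set_option autoImplicit false

open FF Pool.Agent.W602.GT Pool.Agent.Y172 Pool.Agent.R887

namespace Pool.Agent.N110.DV

section

variable {K K' : Type} [Field K] [Algebra ℂ K] [Field K'] [Algebra ℂ K'] {N N' : ℕ}

/-- Let `X' ⇢ X` be the dominant generically finite rational map given by the homomorphism `π` of
the function fields, which contracts no prime divisor of `X'`: if `Q` is a prime divisor of `X'` and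
`P` its image then `P` is a prime divisor of `X`; let `e` be the ramification index. The class of
`π^* L`, whose multiplicity along `Q` is `e (L P)`, is at most the class of `L'`: the divisor
`L' - π^* L` is pseudo-effective, that is, for some effective divisor `B` the divisors
`m (L' - π^* L) + B` are linearly equivalent to effective divisors for all `m ≥ 1`. -/
def ImgClassLe (π : K →ₐ[ℂ] K') (y : Fin (N + 1) → K) (L : Place ℂ K → ℚ)
    (y' : Fin (N' + 1) → K') (L' : Place ℂ K' → ℚ) : Prop :=
  ∃ B, Effective y' B ∧ ∀ m : ℕ, 1 ≤ m → ∃ h : K', h ≠ 0 ∧ ∀ Q : Place ℂ K', IsPrimeDivisor y' Q →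
    ∀ (P : Place ℂ K) (e : ℕ), LiesOver π Q P e →
      IsPrimeDivisor y P ∧ 0 ≤ (Q.ord h : ℚ) + m * (L' Q - e * L P) + B Q

/-- The dominant rational self-map `f` of `X` given by the endomorphism `φ` of the function field
contracts no prime divisor, and the class of `f^* L` is at most the class of `L`: the divisor
`L - f^* L` is pseudo-effective. -/
def SelfClassLe (φ : K →ₐ[ℂ] K) (y : Fin (N + 1) → K) (L : Place ℂ K → ℚ) : Prop :=
  ImgClassLe φ y L y L

end

end Pool.Agent.N110.DV
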