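import Pool.Agent.N110.DV.SJ
import Pool.Agent.N110.DV.SG
import Pool.Agent.N110.DV.Main
import Pool.Agent.N110.SE.Main
import Pool.Agent.N110.SE.Fin

/-!
Dominant rational self-maps which preserve the class of a nef divisor `L`: the plateau theorem and
the rank theorem.
-/

set_option autoImplicit false
set_option linter.overlappingInstances false
set_option linter.unusedSectionVars false

open FF Module MvPolynomial Pool.Agent.W602.GT Pool.Agent.W603.LV
open Pool.Agent.Y172 Pool.Agent.Y191 Pool.Agent.R887 Pool.Agent.N110.RK Pool.Agent.N110.SE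
open scoped ENNReal Topology

namespace Pool.Agent.N110.DV

section

variable {K : Type} [Field K] [Algebra ℂ K] {N n : ℕ} {y : Fin (N + 1) → K} {L : Place ℂ K → ℚ}

/-- **The plateau theorem** for nef divisors and rational self-maps. -/
theorem splateauD (hy : NormalModel y) (hn : Algebra.trdeg ℂ K = n)
    (hL : {P | IsPrimeDivisor y P ∧ L P ≠ 0}.Finite) (hnef : NefD y n L)
    {S : Set (K →ₐ[ℂ] K)} (h1 : ∀ φ ∈ S, SelfClassLe φ y L)
    {C₁ : ℕ} (hC₁ : ∀ φ ∈ S, selfDegree φ y n 1 ≤ C₁) {ν : ℕ} (hν : ν ≤ n)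
    (hnum : ¬ NuLt y n L ν) :
    ∃ j, j + ν ≤ n ∧ ∀ a ≤ ν, ∀ p ≤ n,
      selfJointDegree S y n p ≤ selfJointDegree S y n (j + a) := by
  obtain ⟨x, E, hx, hE⟩ := exists_crd hn (k := ℂ) (K := K)
  have hfr : IsFrame E := fun F => ⟨fun j => F (x j),
    (Pool.Agent.W73.PG.PULL.expand x hx E hE F).symm⟩
  obtain ⟨c, hcfin, hc⟩ := exists_ordc hy hn hx hE
  have hc' : IsDisc y E c := hc
  exact splateauW hy hn hE hfr hcfin hc' (sh_fin hcfin hL) (logNef_of hE hc' hnef)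
    (fun φ hφ => wepulls_of hy hn (h1 φ hφ)) hC₁ hν (fun h => hnum ((nuLt_iff hE hfr hc').1 h))

/-- the directions of subexponential growth -/
theorem semi_spaceD (hy : NormalModel y) (hn : Algebra.trdeg ℂ K = n) (hn0 : 0 < n)
    (hL : {P | IsPrimeDivisor y P ∧ L P ≠ 0}.Finite) (hnef : NefD y n L) {r : ℕ}
    {φ : (Fin r → ℕ) → (K →ₐ[ℂ] K)} (hφ : ∀ u v, φ (u + v) = φ u * φ v)
    (hP : ∀ v, SelfClassLe (φ v) y L) {ν : ℕ} (hν : ν ≤ n) (hnum : ¬ NuLt y n L ν) :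
    ∃ W : Submodule ℝ (Fin r → ℝ), r + ν ≤ finrank ℝ W + n ∧ ∀ w ∈ W, CorrSubexp φ y n w := by
  obtain ⟨i, hi⟩ := hy.ne
  obtain ⟨x, E, hx, hE⟩ := exists_crd hn (k := ℂ) (K := K)
  have hfr : IsFrame E := fun F => ⟨fun j => F (x j),
    (Pool.Agent.W73.PG.PULL.expand x hx E hE F).symm⟩
  obtain ⟨c0, hcfin, hc⟩ := exists_ordc hy hn hx hE
  have hc' : IsDisc y E c0 := hc
  obtain ⟨m, M, c, ε, h⟩ := exists_esysW (x := x) hy hn hn0 hi hfr hcfin hc' (sh_fin hcfin hL)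
    (logNef_of hE hc' hnef) hφ (fun v => wepulls_of hy hn (hP v)) hν
    (fun h => hnum ((nuLt_iff hE hfr hc').1 h))
  obtain ⟨W, hW1, hW2⟩ := semi_rank SE.stmSJ h
  refine ⟨W, hW1, fun w hw δ hδ => ?_⟩
  obtain ⟨B, hB⟩ := hW2 w hw δ hδ
  refine ⟨B, fun l v hv => (SE.stmSD hy hn hn0 hi v).trans (ENNReal.ofReal_le_ofReal ?_)⟩
  refine le_trans (le_of_eq ?_) (hB l v hv)
  have hs : (Multiset.replicate n (hcls hy hi)).card = n := Multiset.card_replicate _ _
  have h1 := h.inv (ng v) (Multiset.replicate n (hcls hy hi)) hs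
  have h2 := h.pos (Multiset.replicate n (hcls hy hi)) hs
  have h3 := I_emap hy hn hi (φ (ng v)) hs
  have h4 : (mapDegree (φ (ng v)) : ℝ) = Real.exp (∑ i, Real.log (mapDegree
      (φ (Pi.single i 1)) : ℝ) * (ng v i : ℝ)) := by
    beta_reduce at h1 h2
    rw [h3] at h1
    push_cast at h1
    exact mul_right_cancel₀ h2.ne' h1
  rw [h4, Real.exp_neg, mul_comm, div_eq_mul_inv]

/-- a nef divisor is pseudo-effective -/
theorem not_nuLt_zero (hy : NormalModel y) (hn : Algebra.trdeg ℂ K = n) (hn0 : 0 < n)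
    (hnef : NefD y n L) : ¬ NuLt y n L 0 := by
  obtain ⟨x, E, hx, hE⟩ := exists_crd hn (k := ℂ) (K := K)
  have hfr : IsFrame E := fun F => ⟨fun j => F (x j),
    (Pool.Agent.W73.PG.PULL.expand x hx E hE F).symm⟩
  obtain ⟨c, hcfin, hc⟩ := exists_ordc hy hn hx hE
  have hc' : IsDisc y E c := hc
  intro h
  exact not_numDimLt_zero hy hn hn0 (logNef_of hE hc' hnef) ((nuLt_iff hE hfr hc').2 h)

/-- **The rank theorem** for nef divisors and commuting dominant rational self-maps. -/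
theorem semi_mainD (hy : NormalModel y) (hn : Algebra.trdeg ℂ K = n) (hn0 : 0 < n)
    (hL : {P | IsPrimeDivisor y P ∧ L P ≠ 0}.Finite) (hnef : NefD y n L) {r s : ℕ} (hs : 0 < s)
    {φ : (Fin r → ℕ) → (K →ₐ[ℂ] K)} (hφ : ∀ u v, φ (u + v) = φ u * φ v)
    (hP : ∀ v, SelfClassLe (φ v) y L) (hrank : CorrRankGe φ y n s) :
    s ≤ n ∧ NuLt y n L (n - s + 1) := by
  have hsn : s ≤ n := by
    obtain ⟨W, hW1, hW⟩ := semi_spaceD hy hn hn0 hL hnef hφ hP (Nat.zero_le n)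
      (not_nuLt_zero hy hn hn0 hnef)
    have := hrank W hW
    omega
  refine ⟨hsn, ?_⟩
  by_contra hnum
  obtain ⟨W, hW1, hW⟩ := semi_spaceD hy hn hn0 hL hnef hφ hP (by omega : n - s + 1 ≤ n) hnum
  have h2 := hrank W hW
  omega

end

end Pool.Agent.N110.DV
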